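import Pool.Agent.H283.HT.Stm

/-!
# HT-FIB: every single fibre is good
-/

set_option autoImplicit false

namespace Pool.Agent.H271.HTFIB

open Pool.Agent.H283.HT

/-- the heights of the points of `K` over `q a` are bounded from below by `-1 + 2 κ` -/
lemma exists_kappa {K : Set P3} {q : ℝ → P2} (hB : Body K) (hL : Low K) (a : ℝ)
    (hq : q a ∉ interior (Sh K)) :
    ∃ κ : ℝ, 0 < κ ∧ ∀ x ∈ K, x.1 = q a → -1 + 2 * κ ≤ x.2 := by
  have hcl : IsClosed {x : P3 | x.1 = q a} := isClosed_eq continuous_fst continuous_const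
  have hc : IsCompact (K ∩ {x : P3 | x.1 = q a}) := hB.comp.inter_right hcl
  rcases (K ∩ {x : P3 | x.1 = q a}).eq_empty_or_nonempty with he | hne
  · refine ⟨1, one_pos, fun x hx hx1 => ?_⟩
    have : x ∈ K ∩ {x : P3 | x.1 = q a} := ⟨hx, hx1⟩
    rw [he] at this
    exact absurd this (Set.notMem_empty x)
  · obtain ⟨x0, hx0, hmin⟩ := hc.exists_isMinOn hne (f := fun x : P3 => x.2)
      continuous_snd.continuousOn
    have h1 : -1 < x0.2 := by
      apply hL x0 hx0.1
      have h2 : x0.1 = q a := hx0.2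
      rw [h2]
      exact hq
    refine ⟨(x0.2 + 1) / 2, by linarith, fun x hx hx1 => ?_⟩
    have h3 : x0.2 ≤ x.2 := hmin ⟨hx, hx1⟩
    linarith

theorem FIB_done (hDI : S_DI) (hPOS : S_POS) (hLIGHT : S_LIGHT) : S_FIB := by
  intro K q hB hD hP hL a
  obtain ⟨κ, hκ, hk⟩ := exists_kappa hB hL a ((hPOS (Sh K) q hD hP).2.2.2.2.1 a)
  refine ⟨((-q a, -κ) : P3), ?_⟩
  intro θ h1 h2 x hx hxq
  have hθ : θ = a := le_antisymm h2 h1
  rw [hθ] at hxq
  have hz := hk x hx hxq
  have hx' : ((q a, x.2) : P3) ∈ K := by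
    rw [← hxq]
    exact hx
  have h3 : q a + (1 / 2 : ℝ) • (-q a) ∈ interior (Sh K) := by
    have h4 : q a + (1 / 2 : ℝ) • (-q a) = (1 / 2 : ℝ) • q a := by
      ext
      · simp
        ring
      · simp
        ring
    rw [h4]
    exact (hDI (Sh K) hD).1 (q a) (hP.mem a) (1 / 2) (by
      rw [abs_of_pos (by norm_num : (0 : ℝ) < 1 / 2)]
      norm_num)
  have h0 : q a + (1 : ℝ) • (-q a) = 0 := by
    rw [one_smul, add_neg_cancel]
  have h5 := hLIGHT K hB (q a) (-q a) x.2 (-κ) (1 / 2) 1 1 1 (-1) hx' (by norm_num) h3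
    zero_le_one (by rw [h0]; exact hB.top) (by linarith [hB.le x hx])
    zero_le_one (by rw [h0]; exact hB.bot) (by linarith)
  have h6 : x = ((q a, x.2) : P3) := by
    rw [← hxq]
  rw [h6]
  exact h5

end Pool.Agent.H271.HTFIB
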